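import Mathlib

set_option autoImplicit false
open Matrix

namespace Pool.Agent.KS6_69.CX

def MM : CoxeterMatrix (Fin 3) where
  M := Matrix.of fun i j => if i = j then 1 else 0

def A : Fin 3 → Matrix (Fin 3) (Fin 3) ℝ :=
  ![!![-1, 0, 0; 2, 0, 1; 2, 1, 0], !![0, 2, 1; 0, -1, 0; 1, 2, 0], !![0, 1, 2; 1, 0, 2; 0, 0, -1]]

theorem A_sq (i : Fin 3) : A i * A i = 1 := by
  fin_cases i <;> ext a b <;> fin_cases a <;> fin_cases b <;>
    simp [A, Matrix.mul_apply, Fin.sum_univ_three]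

def u (i : Fin 3) : (Matrix (Fin 3) (Fin 3) ℝ)ˣ := ⟨A i, A i, A_sq i, A_sq i⟩

theorem liftable : MM.IsLiftable u := by
  intro i j
  by_cases h : i = j
  · subst h
    simp only [MM, of_apply, if_true, pow_one]
    exact Units.ext (A_sq i)
  · simp [MM, h]

noncomputable def ρ : MM.Group →* (Matrix (Fin 3) (Fin 3) ℝ)ˣ :=
  MM.toCoxeterSystem.lift ⟨u, liftable⟩

theorem ρ_s (i : Fin 3) (w : MM.Group) :
    (ρ (MM.toCoxeterSystem.simple i * w)).val = A i * (ρ w).val := by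
  rw [map_mul, ρ, CoxeterSystem.lift_apply_simple]; rfl

def Q (x : Fin 3 → ℝ) : ℝ := x 0 * x 1 + x 0 * x 2 + x 1 * x 2

def C : Set (Fin 3 → ℝ) := {x | 0 < x 0 + x 1 ∧ 0 < Q x}

theorem C_pos {x : Fin 3 → ℝ} (h : x ∈ C) : 0 < x 0 + x 1 ∧ 0 < x 0 + x 2 ∧ 0 < x 1 + x 2 := by
  obtain ⟨h1, h2⟩ := h
  unfold Q at h2
  exact ⟨h1, pos_of_mul_pos_left (by nlinarith [sq_nonneg (x 0)] : 0 < (x 0 + x 2) * (x 0 + x 1)) h1.le,
    pos_of_mul_pos_left (by nlinarith [sq_nonneg (x 1)] : 0 < (x 1 + x 2) * (x 0 + x 1)) h1.le⟩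

theorem A0 (x : Fin 3 → ℝ) : A 0 *ᵥ x = ![-x 0, x 2 + 2 * x 0, x 1 + 2 * x 0] := by
  ext i; fin_cases i <;> simp [A, mulVec, dotProduct, Fin.sum_univ_three] <;> ring

theorem A1 (x : Fin 3 → ℝ) : A 1 *ᵥ x = ![x 2 + 2 * x 1, -x 1, x 0 + 2 * x 1] := by
  ext i; fin_cases i <;> simp [A, mulVec, dotProduct, Fin.sum_univ_three] <;> ring

theorem A2 (x : Fin 3 → ℝ) : A 2 *ᵥ x = ![x 1 + 2 * x 2, x 0 + 2 * x 2, -x 2] := by
  ext i; fin_cases i <;> simp [A, mulVec, dotProduct, Fin.sum_univ_three] <;> ring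

theorem fin3 (i : Fin 3) : i = 0 ∨ i = 1 ∨ i = 2 := by fin_cases i <;> simp

theorem A_act (i : Fin 3) {x : Fin 3 → ℝ} (h : x ∈ C) : A i *ᵥ x ∈ C ∧ Q (A i *ᵥ x) = Q x ∧
    (A i *ᵥ x) i = -x i ∧
    (A i *ᵥ x) 0 + (A i *ᵥ x) 1 + (A i *ᵥ x) 2 = x 0 + x 1 + x 2 + 2 * x i := by
  obtain ⟨h1, h2, h3⟩ := C_pos h
  have h4 := h.2
  have q : Q (A i *ᵥ x) = Q x := by
    rcases fin3 i with rfl | rfl | rfl
    · rw [A0]; simp [Q]; ring
    · rw [A1]; simp [Q]; ring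
    · rw [A2]; simp [Q]; ring
  refine ⟨⟨?_, q ▸ h4⟩, q, ?_⟩
  · rcases fin3 i with rfl | rfl | rfl
    · rw [A0]; simp; linarith
    · rw [A1]; simp; linarith
    · rw [A2]; simp; unfold Q at h4; nlinarith [sq_nonneg (x 0 - x 1)]
  · rcases fin3 i with rfl | rfl | rfl
    · rw [A0]; simp; ring
    · rw [A1]; simp; ring
    · rw [A2]; simp; ring

theorem ρ_C (w : MM.Group) (x : Fin 3 → ℝ) (h : x ∈ C) : (ρ w).val *ᵥ x ∈ C := by
  refine MM.toCoxeterSystem.simple_induction_left (p := fun w => (ρ w).val *ᵥ x ∈ C) w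
    (by simpa using h) fun w i ih => ?_
  rw [ρ_s, ← mulVec_mulVec]
  exact (A_act i ih).1

theorem one_C : (fun _ => 1) ∈ C := by simp [C, Q]; norm_num

theorem pp (ω : List (Fin 3)) : ∀ i, (i :: ω).IsChain (· ≠ ·) →
    ((ρ (MM.toCoxeterSystem.wordProd (i :: ω))).val *ᵥ fun _ => 1) i < 0 := by
  induction ω with
  | nil =>
    intro i _
    rw [CoxeterSystem.wordProd_cons, ρ_s, ← mulVec_mulVec, (A_act i (ρ_C _ _ one_C)).2.2.1]
    simp
  | cons j ω ih =>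
    intro i h
    rw [List.isChain_cons_cons] at h
    have h1 := ih j h.2
    have h2 := C_pos (ρ_C (MM.toCoxeterSystem.wordProd (j :: ω)) _ one_C)
    rw [CoxeterSystem.wordProd_cons, ρ_s, ← mulVec_mulVec, (A_act i (ρ_C _ _ one_C)).2.2.1]
    have h3 := h.1
    rcases fin3 i with rfl | rfl | rfl <;> rcases fin3 j with rfl | rfl | rfl <;>
      first | exact absurd rfl h3 | linarith

theorem ρ_inj : Function.Injective ρ := by
  refine (injective_iff_map_eq_one _).2 fun w hw => ?_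
  obtain ⟨ω, h, rfl⟩ : ∃ ω : List (Fin 3), ω.IsChain (· ≠ ·) ∧
      w = MM.toCoxeterSystem.wordProd ω := by
    refine MM.toCoxeterSystem.simple_induction_left (p := fun w => ∃ ω : List (Fin 3),
      ω.IsChain (· ≠ ·) ∧ w = MM.toCoxeterSystem.wordProd ω) w ⟨[], by simp, by simp⟩ ?_
    rintro _ i ⟨_ | ⟨j, ω⟩, h, rfl⟩
    · exact ⟨[i], by simp, by simp⟩
    · by_cases e : i = j
      · exact ⟨ω, h.tail, by
          rw [e, CoxeterSystem.wordProd_cons, CoxeterSystem.simple_mul_simple_cancel_left]⟩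
      · exact ⟨i :: j :: ω, List.isChain_cons_cons.2 ⟨e, h⟩,
          (CoxeterSystem.wordProd_cons _ _ _).symm⟩
  cases ω with
  | nil => simp
  | cons i ω =>
    have := pp ω i h
    rw [hw] at this
    simp at this
    linarith

theorem ρ_det (w : MM.Group) : (ρ w).val.det = 1 := by
  refine MM.toCoxeterSystem.simple_induction_left (p := fun w => (ρ w).val.det = 1) w
    (by simp) fun w i ih => ?_
  rw [ρ_s, det_mul, ih]
  fin_cases i <;> simp [A, det_fin_three]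

theorem ρ_int (w : MM.Group) : ∃ B : Matrix (Fin 3) (Fin 3) ℤ, (ρ w).val = B.map (↑) := by
  refine MM.toCoxeterSystem.simple_induction_left
    (p := fun w => ∃ B : Matrix (Fin 3) (Fin 3) ℤ, (ρ w).val = B.map (↑)) w ⟨1, by simp⟩ ?_
  rintro w i ⟨B, hB⟩
  obtain ⟨B', hB'⟩ : ∃ B' : Matrix (Fin 3) (Fin 3) ℤ, A i = B'.map (↑) := by
    refine ⟨![!![-1, 0, 0; 2, 0, 1; 2, 1, 0], !![0, 2, 1; 0, -1, 0; 1, 2, 0],
      !![0, 1, 2; 1, 0, 2; 0, 0, -1]] i, ?_⟩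
    fin_cases i <;> ext a b <;> fin_cases a <;> fin_cases b <;> simp [A]
  exact ⟨B' * B, by rw [ρ_s, hB, hB']; exact (Matrix.map_mul (f := Int.castRingHom ℝ)).symm⟩

theorem reduce (k : ℕ) : ∀ x ∈ C, (x 0 + x 1 + x 2) ^ 2 ≤ k * Q x →
    ∃ w : MM.Group, ∀ i, 0 ≤ ((ρ w).val *ᵥ x) i := by
  induction k with
  | zero =>
    intro x hx h
    obtain ⟨h1, h2, h3⟩ := C_pos hx
    simp only [Nat.cast_zero, zero_mul] at h
    nlinarith
  | succ k ih =>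
    intro x hx h
    by_cases h0 : ∀ i, 0 ≤ x i
    · exact ⟨1, by simpa using h0⟩
    obtain ⟨i, hi⟩ := not_forall.1 h0
    have e : ∀ w, (ρ (w * MM.toCoxeterSystem.simple i)).val *ᵥ x = (ρ w).val *ᵥ (A i *ᵥ x) := by
      intro w
      have := ρ_s i 1
      rw [mul_one, map_one, Units.val_one, mul_one] at this
      rw [map_mul, Units.val_mul, this, mulVec_mulVec]
    by_cases h1 : ∀ j, 0 ≤ (A i *ᵥ x) j
    · exact ⟨1 * _, by rw [e]; simpa using h1⟩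
    obtain ⟨j, hj⟩ := not_forall.1 h1
    obtain ⟨a1, a2, a3, a4⟩ := A_act i hx
    obtain ⟨w, hw⟩ := ih _ a1 (by
      obtain ⟨p1, p2, p3⟩ := C_pos hx
      obtain ⟨q1, q2, q3⟩ := C_pos a1
      have q := hx.2
      rw [a2, a4]
      push_cast at h
      rw [not_le] at hi hj
      suffices Q x ≤ -2 * x i * (x 0 + x 1 + x 2) by nlinarith
      unfold Q at q ⊢
      rcases fin3 i with rfl | rfl | rfl <;> rcases fin3 j with rfl | rfl | rfl <;>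
        simp only [A0, A1, A2, cons_val_zero, cons_val_one, cons_val_two, head_cons,
          tail_cons] at hj <;>
        nlinarith)
    exact ⟨w * _, by rwa [e]⟩

def F : Set (Fin 3 → ℝ) :=
  {x ∈ C | -(x 0 + x 1) ≤ x 1 ∧ x 1 ≤ 2 * (x 0 + x 1) ∧ (x 0 + x 1) ^ 2 ≤ 4 * Q x}

theorem cover (x : Fin 3 → ℝ) (hx : x ∈ C) : ∃ w : MM.Group, (ρ w).val *ᵥ x ∈ F := by
  obtain ⟨k, hk⟩ := exists_nat_ge ((x 0 + x 1 + x 2) ^ 2 / Q x)
  obtain ⟨w, hw⟩ := reduce k x hx ((div_le_iff₀ hx.2).1 hk)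
  have hy := ρ_C w x hx
  have e := fun i => (congrArg (· *ᵥ x) (ρ_s i w)).trans (mulVec_mulVec _ _ _).symm
  generalize hh : (ρ w).val *ᵥ x = y at hw hy e
  have h0 := hw 0
  have h1 := hw 1
  have h2 := hw 2
  obtain ⟨p1, p2, p3⟩ := C_pos hy
  by_cases c : y 0 ≤ y 2 ∧ y 1 ≤ y 2
  · exact ⟨w, hh ▸ ⟨hy, by linarith, by linarith, by unfold Q; nlinarith [c.1, c.2]⟩⟩
  by_cases c' : y 0 ≤ y 1
  · have : y 2 ≤ y 1 := by by_contra h; exact c ⟨by linarith, by linarith⟩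
    refine ⟨MM.toCoxeterSystem.simple 0 * w, ?_⟩
    rw [e 0]
    refine ⟨(A_act 0 hy).1, ?_⟩
    rw [(A_act 0 hy).2.1, A0]
    simp only [cons_val_zero, cons_val_one, Q]
    exact ⟨by linarith, by linarith, by nlinarith⟩
  · have : y 2 ≤ y 0 := by by_contra h; exact c ⟨by linarith, by linarith⟩
    refine ⟨MM.toCoxeterSystem.simple 1 * w, ?_⟩
    rw [e 1]
    refine ⟨(A_act 1 hy).1, ?_⟩
    rw [(A_act 1 hy).2.1, A1]
    simp only [cons_val_zero, cons_val_one, Q]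
    exact ⟨by linarith, by linarith, by nlinarith⟩

theorem cl {x : Fin 3 → ℝ} (h : x ∈ closure C) : 0 ≤ x 0 + x 1 ∧ 0 ≤ x 1 + x 2 ∧ 0 ≤ Q x :=
  closure_minimal (t := {x : Fin 3 → ℝ | 0 ≤ x 0 + x 1 ∧ 0 ≤ x 1 + x 2 ∧ 0 ≤ Q x})
    (fun x hx => ⟨hx.1.le, (C_pos hx).2.2.le, hx.2.le⟩)
    (IsClosed.and (isClosed_le (by fun_prop) (by fun_prop)) (IsClosed.and
      (isClosed_le (by fun_prop) (by fun_prop))
      (isClosed_le (by fun_prop) (by unfold Q; fun_prop)))) h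

noncomputable def uu (x : Fin 3 → ℝ) : ℝ := x 1 / (x 0 + x 1)

noncomputable def vv (x : Fin 3 → ℝ) : ℝ := √(Q x) / (x 0 + x 1)

theorem sinf {x y : Fin 3 → ℝ} (hx : x ∈ C) (hy : y ∈ C) {η : ℝ} (h0 : 0 < η) (h1 : η ≤ 1 / 2)
    (hu : |uu x - uu y| ≤ η * vv y) (hv : vv x ≤ (1 + η) * vv y) :
    (x 0 + x 1) / (y 0 + y 1) ≤ sInf {t : ℝ | t • y - x ∈ closure C} ∧
      sInf {t : ℝ | t • y - x ∈ closure C} ≤ (1 + 4 * η) * ((x 0 + x 1) / (y 0 + y 1)) := by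
  have a := hx.1
  have b := hy.1
  have lb : ∀ t ∈ {t : ℝ | t • y - x ∈ closure C}, (x 0 + x 1) / (y 0 + y 1) ≤ t := by
    intro t ht
    have := (cl ht).1
    simp only [Pi.sub_apply, Pi.smul_apply, smul_eq_mul] at this
    rw [div_le_iff₀ b]
    linarith
  have mem : (1 + 4 * η) * ((x 0 + x 1) / (y 0 + y 1)) ∈ {t : ℝ | t • y - x ∈ closure C} := by
    have vx : 0 < vv x := div_pos (Real.sqrt_pos.2 hx.2) a
    have vy : 0 < vv y := div_pos (Real.sqrt_pos.2 hy.2) b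
    have ex : vv x ^ 2 = Q x / (x 0 + x 1) ^ 2 := by rw [vv, div_pow, Real.sq_sqrt hx.2.le]
    have ey : vv y ^ 2 = Q y / (y 0 + y 1) ^ 2 := by rw [vv, div_pow, Real.sq_sqrt hy.2.le]
    have k1 : (uu x - uu y) ^ 2 ≤ (η * vv y) ^ 2 := sq_le_sq' (abs_le.1 hu).1 (abs_le.1 hu).2
    have k2 : vv x ^ 2 ≤ ((1 + η) * vv y) ^ 2 := pow_le_pow_left₀ vx.le hv 2
    have k3 : 0 < 4 * η * ((1 + 4 * η) * vv y ^ 2 - vv x ^ 2) - (1 + 4 * η) * (uu x - uu y) ^ 2 := by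
      have m1 := mul_le_mul_of_nonneg_left k1 (by linarith : 0 ≤ 1 + 4 * η)
      have m2 := mul_le_mul_of_nonneg_left k2 (by linarith : 0 ≤ 4 * η)
      have m3 : 0 < (η * vv y) ^ 2 * (7 - 8 * η) := mul_pos (by positivity) (by linarith)
      nlinarith
    refine subset_closure ⟨?_, ?_⟩
    · simp only [Pi.sub_apply, Pi.smul_apply, smul_eq_mul]
      have : (1 + 4 * η) * ((x 0 + x 1) / (y 0 + y 1)) * y 0 - x 0 +
          ((1 + 4 * η) * ((x 0 + x 1) / (y 0 + y 1)) * y 1 - x 1) = 4 * η * (x 0 + x 1) := by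
        field_simp; ring
      rw [this]; positivity
    · refine (mul_pos (pow_pos a 2) k3).trans_eq ?_
      rw [ex, ey]
      simp only [Q, uu, Pi.sub_apply, Pi.smul_apply, smul_eq_mul]
      field_simp
      ring
  exact ⟨le_csInf ⟨_, mem⟩ lb, csInf_le ⟨_, lb⟩ mem⟩

theorem dist_le {x y : Fin 3 → ℝ} (hx : x ∈ C) (hy : y ∈ C) {η s : ℝ} (h0 : 0 < η)
    (h1 : η ≤ 1 / 2) (hu : |uu x - uu y| ≤ s) (hv : |vv x - vv y| ≤ s) (sx : s ≤ η * vv x)
    (sy : s ≤ η * vv y) : (1 / 2) * Real.log (sInf {t : ℝ | t • y - x ∈ closure C}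
      * sInf {t : ℝ | t • x - y ∈ closure C}) ≤ 4 * η := by
  obtain ⟨a1, a2⟩ := sinf hx hy h0 h1 (hu.trans sy) (by linarith [(abs_le.1 hv).2])
  obtain ⟨b1, b2⟩ := sinf hy hx h0 h1 ((abs_sub_comm _ _).trans_le (hu.trans sx))
    (by linarith [(abs_le.1 hv).1])
  have a := hx.1
  have b := hy.1
  have p1 := (div_pos a b).trans_le a1
  have p2 := (div_pos b a).trans_le b1
  have h := mul_le_mul a2 b2 p2.le (p1.le.trans a2)
  have e : (1 + 4 * η) * ((x 0 + x 1) / (y 0 + y 1)) * ((1 + 4 * η) * ((y 0 + y 1) / (x 0 + x 1))) =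
      (1 + 4 * η) ^ 2 := by field_simp
  have h2 := Real.log_le_log (mul_pos p1 p2) (h.trans_eq e)
  rw [Real.log_pow] at h2
  have h3 := Real.log_le_sub_one_of_pos (by linarith : 0 < 1 + 4 * η)
  push_cast at h2
  linarith

theorem fl {a b : ℝ} (ha : 0 ≤ a) (hb : 0 ≤ b) (h : ⌊a⌋₊ = ⌊b⌋₊) : |a - b| ≤ 1 := by
  have h1 := Nat.floor_le ha
  have h2 := Nat.floor_le hb
  have h3 := Nat.lt_floor_add_one a
  have h4 := Nat.lt_floor_add_one b
  rw [h] at h1 h3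
  exact abs_le.2 ⟨by linarith, by linarith⟩

noncomputable def idx (N : ℕ) (x : Fin 3 → ℝ) : ℕ := ⌊N * (uu x + 1)⌋₊ + 4 * N * ⌊N * vv x⌋₊

theorem F_bd {x : Fin 3 → ℝ} (h : x ∈ F) : -1 ≤ uu x ∧ uu x ≤ 2 ∧ 1 / 2 ≤ vv x := by
  obtain ⟨h1, h2, h3, h4⟩ := h
  refine ⟨(le_div_iff₀ h1.1).2 (by linarith), (div_le_iff₀ h1.1).2 h3,
    (le_div_iff₀ h1.1).2 (Real.le_sqrt_of_sq_le (by linarith))⟩

theorem box {N : ℕ} (hN : 8 ≤ N) {x y : Fin 3 → ℝ} (hx : x ∈ F) (hy : y ∈ F) {k : ℕ}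
    (ex : idx N x = k) (ey : idx N y = k) : (1 / 2) * Real.log (sInf {t : ℝ | t • y - x ∈ closure C}
      * sInf {t : ℝ | t • x - y ∈ closure C}) ≤ 4 * (16 * N / (4 * N ^ 2 + k)) := by
  have n8 : (8 : ℝ) ≤ N := by exact_mod_cast hN
  have n0 : (0 : ℝ) < N := by linarith
  have k0 : (0 : ℝ) ≤ k := Nat.cast_nonneg k
  have lt : ∀ z ∈ F, ⌊N * (uu z + 1)⌋₊ < 4 * N := fun z hz =>
    (Nat.floor_lt (by nlinarith [(F_bd hz).1])).2 (by push_cast; nlinarith [(F_bd hz).2.1])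
  have sz : ∀ z ∈ F, idx N z = k → 1 / N ≤ 16 * N / (4 * N ^ 2 + k) * vv z := by
    intro z hz e
    have h1 : (k : ℝ) < 4 * N + 4 * N * ⌊N * vv z⌋₊ := by
      have := lt z hz
      unfold idx at e
      exact_mod_cast (by omega : k < 4 * N + 4 * N * ⌊N * vv z⌋₊)
    have h3 := (F_bd hz).2.2
    have h2 := Nat.floor_le (by nlinarith : 0 ≤ N * vv z)
    have h4 := mul_le_mul_of_nonneg_left h2 n0.le
    have h5 := mul_le_mul_of_nonneg_left h3 (mul_pos n0 n0).le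
    rw [div_mul_eq_mul_div, div_le_div_iff₀ n0 (by positivity)]
    nlinarith
  have e1 : ⌊N * (uu x + 1)⌋₊ = ⌊N * (uu y + 1)⌋₊ := by
    have := congrArg (· % (4 * N)) (ex.trans ey.symm)
    simpa [idx, Nat.mod_eq_of_lt (lt x hx), Nat.mod_eq_of_lt (lt y hy)] using this
  have e2 : ⌊N * vv x⌋₊ = ⌊N * vv y⌋₊ := by
    have := ex.trans ey.symm
    unfold idx at this
    rw [e1] at this
    exact Nat.eq_of_mul_eq_mul_left (by omega) (Nat.add_left_cancel this)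
  have f1 := fl (by nlinarith [(F_bd hx).1]) (by nlinarith [(F_bd hy).1]) e1
  have f2 := fl (by nlinarith [(F_bd hx).2.2]) (by nlinarith [(F_bd hy).2.2]) e2
  rw [← mul_sub, abs_mul, abs_of_pos n0, ← le_div_iff₀' n0] at f1 f2
  rw [add_sub_add_right_eq_sub] at f1
  refine dist_le hx.1 hy.1 (by positivity) ?_ f1 f2 (sz x hx ex) (sz y hy ey)
  rw [div_le_iff₀ (by positivity)]
  nlinarith

theorem tele {a : ℝ} (ha : 1 < a) (n : ℕ) :
    ∑ k ∈ Finset.range n, 1 / (a + k) ^ 2 ≤ 1 / (a - 1) - 1 / (a + n - 1) := by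
  induction n with
  | zero => simp
  | succ n ih =>
    have n0 : (0 : ℝ) ≤ n := Nat.cast_nonneg n
    have : 1 / (a + n) ^ 2 ≤ 1 / (a + n - 1) - 1 / (a + n) := by
      rw [div_sub_div _ _ (by linarith) (by linarith), div_le_div_iff₀ (by positivity)
        (mul_pos (by linarith) (by linarith))]
      nlinarith
    rw [Finset.sum_range_succ]
    push_cast
    rw [show a + (n + 1) - 1 = a + n by ring]
    linarith

end Pool.Agent.KS6_69.CX
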